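import Mathlib

/-!
# Abstract numeration systems
-/

set_option autoImplicit false

namespace Pool.Agent.H505R3.ANS

/-- An abstract numeration system: an infinite regular language over a finite totally ordered
alphabet `A` (the words are ordered genealogically, see `NumSystem.val`). -/
structure NumSystem (A : Type*) [Fintype A] [LinearOrder A] where
  /-- the numeration language -/
  lang : Language A
  /-- it is regular -/
  regular : lang.IsRegular
  /-- it is infinite -/
  infinite : (lang : Set (List A)).Infinite

variable {A : Type*} [Fintype A] [LinearOrder A]

/-- The value of a word `w` of the numeration language: the number of words of the language which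
are smaller than `w` in the genealogical (radix) order, that is, which are shorter than `w`, or
have the same length and are lexicographically smaller. -/
noncomputable def NumSystem.val (S : NumSystem A) (w : List A) : ℕ :=
  {v : List A | v ∈ S.lang ∧ List.Shortlex (· < ·) v w}.ncard

/-- The language `rep_S(X)` of the words of the numeration language whose value lies in `X`. -/
def NumSystem.rep (S : NumSystem A) (X : Set ℕ) : Language A :=
  {w : List A | w ∈ S.lang ∧ S.val w ∈ X}

/-- `X` is `S`-recognisable: the language `rep_S(X)` is regular. -/
def NumSystem.Recognisable (S : NumSystem A) (X : Set ℕ) : Prop :=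
  (S.rep X).IsRegular

/-- A language is polynomial if its number of words of length `n` is `O(n ^ k)` for some `k`. -/
def IsPolynomialLanguage {A : Type*} (L : Language A) : Prop :=
  ∃ k : ℕ, (fun n : ℕ => (({w : List A | w ∈ L ∧ w.length = n}.ncard : ℕ) : ℝ))
    =O[Filter.atTop] (fun n : ℕ => (n : ℝ) ^ k)

end Pool.Agent.H505R3.ANS
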