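import Mathlib

/-!
# Growth of regular languages: a DFA without forks accepts polynomially many words of each length.
-/

set_option autoImplicit false

namespace Pool.Agent.H505R3.ANS

open Finset

variable {A : Type*} [Fintype A] {σ : Type*} (D : DFA A σ)

/-- words of length `n` accepted from `p` whose run stays inside `S` -/
def W (S : Finset σ) (p : σ) (n : ℕ) : Set (List A) :=
  {w | w.length = n ∧ D.evalFrom p w ∈ D.accept ∧ ∀ w', w' <+: w → D.evalFrom p w' ∈ S}

/-- No forks: loops of a given length at a useful state are unique. -/
def NoFork : Prop :=
  ∀ p : σ, (∃ x, D.eval x = p) → (∃ y, D.evalFrom p y ∈ D.accept) →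
    ∀ u v : List A, u.length = v.length → D.evalFrom p u = p → D.evalFrom p v = p → u = v

lemma W_finite (S : Finset σ) (p : σ) (n : ℕ) : (W D S p n).Finite :=
  (List.finite_length_eq A n).subset (fun _ hw => hw.1)

lemma card_W_le [DecidableEq σ] (hD : NoFork D) : ∀ (s : ℕ) (S : Finset σ), S.card = s →
    ∀ (p : σ), (∃ x, D.eval x = p) → ∀ n : ℕ,
      (W D S p n).ncard ≤ (n * Fintype.card A + 1) ^ s := by
  classical
  intro s
  induction s with
  | zero =>
    intro S hS p _ n
    rw [Finset.card_eq_zero] at hS
    subst hS
    have : W D ∅ p n = ∅ := by
      ext w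
      simp only [W, Set.mem_ofPred_eq, Set.mem_empty_iff_false, iff_false, not_and]
      intro _ _ h
      have := h [] (List.nil_prefix)
      simp at this
    rw [this]
    simp
  | succ s ih =>
    intro S hS p hp n
    by_cases hne : (W D S p n) = ∅
    · rw [hne]; simp
    obtain ⟨w0, hw0⟩ := Set.nonempty_iff_ne_empty.mpr hne
    have hco : ∃ y, D.evalFrom p y ∈ D.accept := ⟨w0, hw0.2.1⟩
    have hpS : p ∈ S := by
      have := hw0.2.2 [] (List.nil_prefix)
      simpa using this
    have huniq := hD p hp hco
    -- the unique loop word of each length
    let g : ℕ → List A := fun i => if h : ∃ u : List A, u.length = i ∧ D.evalFrom p u = p then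
      h.choose else []
    have hg : ∀ u : List A, D.evalFrom p u = p → g u.length = u := by
      intro u hu
      have h : ∃ u' : List A, u'.length = u.length ∧ D.evalFrom p u' = p := ⟨u, rfl, hu⟩
      have h1 : g u.length = h.choose := by simp only [g]; rw [dif_pos h]
      rw [h1]
      exact huniq _ _ h.choose_spec.1 h.choose_spec.2 hu
    -- covering
    have hcover : W D S p n ⊆ {g n} ∪ ⋃ i ∈ Finset.range n, ⋃ a ∈ (Finset.univ : Finset A),
        (fun z => g i ++ a :: z) '' (W D (S.erase p) (D.step p a) (n - 1 - i)) := by
      intro w hw
      obtain ⟨hlen, hacc, hpre⟩ := hw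
      -- maximal return
      let Pr : ℕ → Prop := fun i => D.evalFrom p (w.take i) = p
      have hP0 : Pr 0 := by simp [Pr]
      let i := Nat.findGreatest Pr n
      have hi : Pr i := Nat.findGreatest_spec (Nat.zero_le n) hP0
      have hin : i ≤ n := Nat.findGreatest_le n
      have hmax : ∀ j, i < j → j ≤ n → ¬ Pr j := fun j h1 h2 => Nat.findGreatest_is_greatest h1 h2
      have htl : (w.take i).length = i := by
        rw [List.length_take]; omega
      have hgi : g i = w.take i := by
        have := hg (w.take i) hi
        rwa [htl] at this
      rcases Nat.lt_or_ge i n with hlt | hge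
      · right
        rw [Set.mem_iUnion₂]
        refine ⟨i, Finset.mem_range.mpr hlt, ?_⟩
        rw [Set.mem_iUnion₂]
        have hiw : i < w.length := by omega
        refine ⟨w[i], Finset.mem_univ _, ?_⟩
        refine ⟨w.drop (i + 1), ?_, ?_⟩
        · have hsplit : w = w.take i ++ (w[i] :: w.drop (i+1)) := by
            rw [List.getElem_cons_drop]
            exact (List.take_append_drop i w).symm
          refine ⟨?_, ?_, ?_⟩
          · rw [List.length_drop]; omega
          · rw [hsplit] at hacc
            rw [DFA.evalFrom_of_append, DFA.evalFrom_cons] at hacc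
            rw [show D.evalFrom p (w.take i) = p from hi] at hacc
            exact hacc
          · intro w' hw'
            have hpre2 : (w.take i ++ (w[i] :: w')) <+: w := by
              conv_rhs => rw [hsplit]
              rw [List.prefix_append_right_inj, List.cons_prefix_cons]
              exact ⟨rfl, hw'⟩
            have heval : D.evalFrom p (w.take i ++ (w[i] :: w')) =
                D.evalFrom (D.step p w[i]) w' := by
              rw [DFA.evalFrom_of_append, DFA.evalFrom_cons]
              rw [show D.evalFrom p (w.take i) = p from hi]
            rw [Finset.mem_erase]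
            constructor
            · intro heq
              have hl : (w.take i ++ (w[i] :: w')).length ≤ w.length := hpre2.length_le
              have hl2 : (w.take i ++ (w[i] :: w')).length = i + 1 + w'.length := by
                rw [List.length_append, htl, List.length_cons]; omega
              have htake : w.take (i + 1 + w'.length) = w.take i ++ (w[i] :: w') := by
                have := List.prefix_iff_eq_take.mp hpre2
                rw [hl2] at this
                exact this.symm
              apply hmax (i + 1 + w'.length) (by omega) (by omega)
              change D.evalFrom p (w.take (i + 1 + w'.length)) = p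
              rw [htake, heval, heq]
            · rw [← heval]
              exact hpre _ hpre2
        · change g i ++ w[i] :: List.drop (i+1) w = w
          rw [hgi, List.getElem_cons_drop]
          exact List.take_append_drop i w
      · left
        have : i = n := le_antisymm hin hge
        rw [Set.mem_singleton_iff]
        rw [← this, hgi, this]
        exact (List.take_of_length_le (by omega)).symm
    -- cardinality
    have hfin : ∀ (i : ℕ) (a : A), ((fun z => g i ++ a :: z) ''
        (W D (S.erase p) (D.step p a) (n - 1 - i))).Finite := fun i a =>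
      (W_finite D _ _ _).image _
    have hcardI : ∀ i ∈ Finset.range n, ∀ a : A, ((fun z => g i ++ a :: z) ''
        (W D (S.erase p) (D.step p a) (n - 1 - i))).ncard ≤ (n * Fintype.card A + 1) ^ s := by
      intro i hi a
      refine (Set.ncard_image_le (W_finite D _ _ _)).trans ?_
      have hacc : ∃ x, D.eval x = D.step p a := by
        obtain ⟨x, hx⟩ := hp
        exact ⟨x ++ [a], by rw [DFA.eval_append_singleton, hx]⟩
      refine (ih (S.erase p) (by rw [Finset.card_erase_of_mem hpS, hS]; rfl) _ hacc _).trans ?_
      apply Nat.pow_le_pow_left
      apply Nat.add_le_add_right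
      apply Nat.mul_le_mul_right
      omega
    have hbig : (⋃ i ∈ Finset.range n, ⋃ a ∈ (Finset.univ : Finset A),
        (fun z => g i ++ a :: z) '' (W D (S.erase p) (D.step p a) (n - 1 - i))).ncard
        ≤ n * (Fintype.card A * (n * Fintype.card A + 1) ^ s) := by
      have h1 : ∀ i ∈ Finset.range n, (⋃ a ∈ (Finset.univ : Finset A),
        (fun z => g i ++ a :: z) '' (W D (S.erase p) (D.step p a) (n - 1 - i))).ncard
          ≤ Fintype.card A * (n * Fintype.card A + 1) ^ s := by
        intro i hi
        refine (Finset.set_ncard_biUnion_le _ _).trans ?_
        refine (Finset.sum_le_card_nsmul _ _ _ (fun a _ => hcardI i hi a)).trans ?_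
        rw [smul_eq_mul, Finset.card_univ]
      refine (Finset.set_ncard_biUnion_le _ _).trans ?_
      refine (Finset.sum_le_card_nsmul _ _ _ h1).trans ?_
      rw [smul_eq_mul, Finset.card_range]
    have hfinU : (⋃ i ∈ Finset.range n, ⋃ a ∈ (Finset.univ : Finset A),
        (fun z => g i ++ a :: z) '' (W D (S.erase p) (D.step p a) (n - 1 - i))).Finite := by
      apply Set.Finite.biUnion (Finset.finite_toSet _)
      intro i _
      apply Set.Finite.biUnion (Finset.finite_toSet _)
      intro a _
      exact hfin i a
    calc (W D S p n).ncard
        ≤ ({g n} ∪ ⋃ i ∈ Finset.range n, ⋃ a ∈ (Finset.univ : Finset A),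
        (fun z => g i ++ a :: z) '' (W D (S.erase p) (D.step p a) (n - 1 - i))).ncard :=
          Set.ncard_le_ncard hcover ((Set.finite_singleton _).union hfinU)
      _ ≤ 1 + n * (Fintype.card A * (n * Fintype.card A + 1) ^ s) := by
          refine (Set.ncard_union_le _ _).trans ?_
          rw [Set.ncard_singleton]
          exact Nat.add_le_add_left hbig 1
      _ ≤ (n * Fintype.card A + 1) ^ (s + 1) := by
          have h1 : 1 ≤ (n * Fintype.card A + 1) ^ s := Nat.one_le_pow _ _ (by omega)
          rw [pow_succ]
          nlinarith

/-- number of accepted words of length `n` -/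
lemma card_accepts_le [Fintype σ] (hD : NoFork D) (n : ℕ) :
    {w : List A | w ∈ D.accepts ∧ w.length = n}.ncard ≤
      (n * Fintype.card A + 1) ^ (Fintype.card σ) := by
  classical
  refine le_trans (Set.ncard_le_ncard ?_ (W_finite D Finset.univ D.start n))
    (card_W_le D hD (Fintype.card σ) Finset.univ Finset.card_univ D.start ⟨[], rfl⟩ n)
  intro w hw
  exact ⟨hw.2, hw.1, fun _ _ => Finset.mem_univ _⟩

end Pool.Agent.H505R3.ANS
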