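import Mathlib

set_option autoImplicit false

namespace Pool.Agent.H505R3.ANS

open Polynomial Filter

/-- leading coefficient positivity -/
lemma lead_pos (P : ℚ[X]) (hP : ∀ n : ℕ, ∃ m : ℕ, P.eval (n : ℚ) = m) (hdeg : 2 ≤ P.natDegree) :
    0 < P.leadingCoeff := by
  have hdeg' : 0 < P.degree := natDegree_pos_iff_degree_pos.mp (by omega)
  by_contra hneg
  push Not at hneg
  have h1 : Tendsto (fun x => P.eval x) atTop atBot :=
    P.tendsto_atBot_of_leadingCoeff_nonpos hdeg' hneg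
  have h2 : Tendsto (fun n : ℕ => P.eval (n : ℚ)) atTop atBot :=
    h1.comp tendsto_natCast_atTop_atTop
  obtain ⟨n, hn⟩ := (h2.eventually (eventually_lt_atBot (0 : ℚ))).exists
  obtain ⟨m, hm⟩ := hP n
  rw [hm] at hn
  have : (0 : ℚ) ≤ (m : ℚ) := Nat.cast_nonneg m
  linarith

/-- real version -/
noncomputable def PR (P : ℚ[X]) : ℝ[X] := P.map (algebraMap ℚ ℝ)

lemma eval_PR (P : ℚ[X]) (n : ℕ) : (PR P).eval (n : ℝ) = ((P.eval (n : ℚ) : ℚ) : ℝ) := by
  unfold PR
  have : (n : ℝ) = algebraMap ℚ ℝ (n : ℚ) := by simp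
  rw [this, eval_map_algebraMap, aeval_algebraMap_apply]
  simp

/-- increments are eventually at least `B`. -/
lemma big_gaps (P : ℚ[X]) (hP : ∀ n : ℕ, ∃ m : ℕ, P.eval (n : ℚ) = m) (hdeg : 2 ≤ P.natDegree)
    (B : ℕ) : ∃ t : ℕ, ∀ i j : ℕ, t ≤ i → i < j →
      P.eval (i : ℚ) + B ≤ P.eval (j : ℚ) := by
  have hlead := lead_pos P hP hdeg
  have hinj : Function.Injective (algebraMap ℚ ℝ) := (algebraMap ℚ ℝ).injective
  have hlead' : 0 < (PR P).leadingCoeff := by
    unfold PR
    rw [leadingCoeff_map]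
    simpa using hlead
  have hdeg' : (PR P).natDegree = P.natDegree := natDegree_map _
  have hdd : (derivative (PR P)).natDegree = P.natDegree - 1 := by
    rw [natDegree_derivative, hdeg']
  have hdpos : 0 < (derivative (PR P)).degree := natDegree_pos_iff_degree_pos.mp (by omega)
  have hdl : 0 ≤ (derivative (PR P)).leadingCoeff := by
    rw [leadingCoeff, hdd, coeff_derivative]
    have : P.natDegree - 1 + 1 = (PR P).natDegree := by omega
    rw [this]
    have h1 : 0 < (PR P).coeff (PR P).natDegree := hlead'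
    positivity
  have htend : Tendsto (fun x => (derivative (PR P)).eval x) atTop atTop :=
    (derivative (PR P)).tendsto_atTop_of_leadingCoeff_nonneg hdpos hdl
  obtain ⟨x0, hx0⟩ := (htend.eventually (eventually_ge_atTop (B : ℝ))).exists_forall_of_atTop
  refine ⟨⌈x0⌉₊ , fun i j hi hij => ?_⟩
  have hix : x0 ≤ (i : ℝ) := (Nat.le_ceil x0).trans (by exact_mod_cast hi)
  have hij' : (i : ℝ) + 1 ≤ (j : ℝ) := by exact_mod_cast hij
  have hmv : (B : ℝ) * ((j : ℝ) - i) ≤ (PR P).eval (j : ℝ) - (PR P).eval (i : ℝ) := by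
    have := (convex_Ici x0).mul_sub_le_image_sub_of_le_deriv (f := fun x => (PR P).eval x)
      (PR P).continuous.continuousOn (PR P).differentiable.differentiableOn (C := (B : ℝ))
      (by
        intro x hx
        rw [interior_Ici] at hx
        rw [Polynomial.deriv]
        exact hx0 x hx.le)
      (i : ℝ) hix (j : ℝ) (hix.trans (by linarith)) (by linarith)
    exact this
  rw [eval_PR, eval_PR] at hmv
  have hB : (0 : ℝ) ≤ B := Nat.cast_nonneg B
  have h3 : ((P.eval (i : ℚ) : ℚ) : ℝ) + B ≤ ((P.eval (j : ℚ) : ℚ) : ℝ) := by nlinarith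
  exact_mod_cast h3

/-- polynomial upper bound -/
lemma poly_upper (P : ℚ[X]) : ∃ C : ℕ, ∀ n : ℕ, P.eval (n : ℚ) ≤ C * ((n : ℚ) + 1) ^ P.natDegree := by
  obtain ⟨C, hC⟩ := exists_nat_ge (∑ i ∈ Finset.range (P.natDegree + 1), |P.coeff i|)
  refine ⟨C, fun n => ?_⟩
  rw [eval_eq_sum_range]
  have hn : (0 : ℚ) ≤ n := Nat.cast_nonneg n
  calc ∑ i ∈ Finset.range (P.natDegree + 1), P.coeff i * (n : ℚ) ^ i
      ≤ ∑ i ∈ Finset.range (P.natDegree + 1), |P.coeff i| * ((n : ℚ) + 1) ^ P.natDegree := by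
        apply Finset.sum_le_sum
        intro i hi
        have hi' : i ≤ P.natDegree := Nat.lt_succ_iff.mp (Finset.mem_range.mp hi)
        have h1 : (n : ℚ) ^ i ≤ ((n : ℚ) + 1) ^ P.natDegree :=
          (pow_le_pow_left₀ hn (by linarith) i).trans (pow_le_pow_right₀ (by linarith) hi')
        calc P.coeff i * (n : ℚ) ^ i ≤ |P.coeff i| * (n : ℚ) ^ i :=
              mul_le_mul_of_nonneg_right (le_abs_self _) (by positivity)
          _ ≤ _ := mul_le_mul_of_nonneg_left h1 (abs_nonneg _)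
    _ = (∑ i ∈ Finset.range (P.natDegree + 1), |P.coeff i|) * ((n : ℚ) + 1) ^ P.natDegree := by
        rw [Finset.sum_mul]
    _ ≤ _ := mul_le_mul_of_nonneg_right hC (by positivity)

end Pool.Agent.H505R3.ANS
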