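import Mathlib
import Pool.Agent.H505R3.ANS.Defs

set_option autoImplicit false
set_option linter.unusedSectionVars false

namespace Pool.Agent.H505R3.ANS

variable {A : Type*} [Fintype A] [LinearOrder A]

abbrev SL : List A → List A → Prop := List.Shortlex (· < ·)

lemma SL_trans {a b c : List A} (h1 : SL a b) (h2 : SL b c) : SL a c := by
  rw [SL, List.shortlex_def] at *
  rcases h1 with h1 | ⟨h1, h1'⟩
  · rcases h2 with h2 | ⟨h2, _⟩
    · left; omega
    · left; omega
  · rcases h2 with h2 | ⟨h2, h2'⟩
    · left; omega
    · right
      refine ⟨by omega, ?_⟩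
      exact lt_trans (a := (a : List A)) (b := b) (c := c) h1' h2'

lemma SL_irrefl (a : List A) : ¬ SL a a := by
  rw [SL, List.shortlex_def]
  rintro (h | ⟨_, h⟩)
  · omega
  · exact lt_irrefl (a : List A) h

lemma SL_tri (a b : List A) : SL a b ∨ a = b ∨ SL b a := by
  unfold SL
  rw [List.shortlex_def, List.shortlex_def]
  rcases lt_trichotomy a.length b.length with h | h | h
  · left; left; exact h
  · rcases lt_trichotomy (a : List A) b with h' | h' | h'
    · left; right; exact ⟨h, h'⟩
    · right; left; exact h'
    · right; right; right; exact ⟨h.symm, h'⟩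
  · right; right; left; exact h

lemma finite_len_le (n : ℕ) : {v : List A | v.length ≤ n}.Finite := by
  have : {v : List A | v.length ≤ n} ⊆ ⋃ i ∈ Finset.range (n+1), {v : List A | v.length = i} := by
    intro v hv
    rw [Set.mem_iUnion₂]
    exact ⟨v.length, Finset.mem_range.mpr (Nat.lt_succ_of_le hv), rfl⟩
  refine Set.Finite.subset ?_ this
  apply Set.Finite.biUnion (Finset.finite_toSet _)
  intro i _
  exact List.finite_length_eq A i

lemma finite_below (S : NumSystem A) (w : List A) :
    {v : List A | v ∈ S.lang ∧ SL v w}.Finite := by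
  apply (finite_len_le (A := A) w.length).subset
  intro v hv
  have := hv.2
  rw [SL, List.shortlex_def] at this
  show v.length ≤ w.length
  rcases this with h | ⟨h, _⟩ <;> omega

lemma val_lt (S : NumSystem A) {v w : List A} (hv : v ∈ S.lang) (h : SL v w) :
    S.val v < S.val w := by
  unfold NumSystem.val
  apply Set.ncard_lt_ncard _ (finite_below S w)
  rw [Set.ssubset_iff_of_subset]
  · exact ⟨v, ⟨hv, h⟩, fun h' => SL_irrefl v h'.2⟩
  · intro z hz
    exact ⟨hz.1, SL_trans hz.2 h⟩

lemma val_inj (S : NumSystem A) {v w : List A} (hv : v ∈ S.lang) (hw : w ∈ S.lang)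
    (h : S.val v = S.val w) : v = w := by
  rcases SL_tri v w with h1 | h1 | h1
  · have := val_lt S hv h1; omega
  · exact h1
  · have := val_lt S hw h1; omega

/-- the number of words of length at most `n` -/
noncomputable def cum (L : Language A) (n : ℕ) : ℕ := {w : List A | w ∈ L ∧ w.length ≤ n}.ncard

lemma finite_cum (L : Language A) (n : ℕ) : {w : List A | w ∈ L ∧ w.length ≤ n}.Finite :=
  (finite_len_le (A := A) n).subset (fun _ h => h.2)

lemma val_lt_cum (S : NumSystem A) {w : List A} (hw : w ∈ S.lang) {n : ℕ} (hn : w.length ≤ n) :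
    S.val w < cum S.lang n := by
  unfold NumSystem.val cum
  apply Set.ncard_lt_ncard _ (finite_cum S.lang n)
  rw [Set.ssubset_iff_of_subset]
  · exact ⟨w, ⟨hw, hn⟩, fun h' => SL_irrefl w h'.2⟩
  · intro z hz
    refine ⟨hz.1, ?_⟩
    have h2 : SL z w := hz.2
    rw [SL, List.shortlex_def] at h2
    rcases h2 with h | ⟨h, _⟩ <;> omega

/-- every number below `cum n` is the value of a word of length at most `n` -/
lemma exists_word (S : NumSystem A) (n x : ℕ) (hx : x < cum S.lang n) :
    ∃ w ∈ S.lang, w.length ≤ n ∧ S.val w = x := by
  classical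
  have hfin := finite_cum S.lang n
  have hinj : Set.InjOn S.val {w : List A | w ∈ S.lang ∧ w.length ≤ n} :=
    fun v hv w hw h => val_inj S hv.1 hw.1 h
  have himg : S.val '' {w : List A | w ∈ S.lang ∧ w.length ≤ n} = Set.Iio (cum S.lang n) := by
    apply Set.eq_of_subset_of_ncard_le
    · rintro _ ⟨w, hw, rfl⟩
      exact val_lt_cum S hw.1 hw.2
    · rw [hinj.ncard_image]
      have : (Set.Iio (cum S.lang n)).ncard = cum S.lang n := by
        rw [← Finset.coe_Iio, Set.ncard_coe_finset, Nat.card_Iio]
      rw [this]
      rfl
    · exact Set.finite_Iio _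
  have hx' : x ∈ Set.Iio (cum S.lang n) := hx
  rw [← himg] at hx'
  obtain ⟨w, hw, rfl⟩ := hx'
  exact ⟨w, hw.1, hw.2, rfl⟩

/-- lexicographic sandwich -/
lemma prefix_of_between : ∀ (s a b z : List A), a.length = b.length →
    z.length = (s ++ a).length → ¬ (z < s ++ a) → z < s ++ b → s <+: z := by
  intro s
  induction s with
  | nil => intro a b z _ _ _ _; exact List.nil_prefix
  | cons c s ih =>
    intro a b z hab hz h1 h2
    rcases z with _ | ⟨d, z⟩
    · simp at hz
    · rw [List.cons_append] at h1 h2
      rw [List.cons_lt_cons_iff] at h1 h2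
      push Not at h1
      have hdc : c = d := by
        rcases h2 with h2 | ⟨h2, _⟩
        · exact absurd h2 (not_lt.mpr h1.1)
        · exact h2.symm
      subst hdc
      rw [List.cons_prefix_cons]
      refine ⟨rfl, ih a b z hab (by simpa using hz) ?_ ?_⟩
      · have := h1.2 rfl
        exact not_lt.mpr this
      · rcases h2 with h2 | ⟨_, h2⟩
        · exact absurd h2 (lt_irrefl _)
        · exact h2

/-- two words of the language that share a long common part have close values -/
lemma val_diff (S : NumSystem A) (s a b : List A) (hab : a.length = b.length) :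
    S.val (s ++ b) ≤ S.val (s ++ a) + (Fintype.card A) ^ a.length := by
  classical
  unfold NumSystem.val
  have hsub : {v : List A | v ∈ S.lang ∧ List.Shortlex (· < ·) v (s ++ b)} ⊆
      {v : List A | v ∈ S.lang ∧ List.Shortlex (· < ·) v (s ++ a)} ∪
        (fun z => s ++ z) '' {z : List A | z.length = a.length} := by
    intro v hv
    by_cases h : List.Shortlex (· < ·) v (s ++ a)
    · left; exact ⟨hv.1, h⟩
    · right
      have hv2 := hv.2
      rw [List.shortlex_def] at h hv2
      push Not at h
      have hlen : v.length = (s ++ a).length := by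
        rcases hv2 with h3 | ⟨h3, _⟩
        · simp only [List.length_append] at h3 h ⊢; omega
        · simp only [List.length_append] at h3 h ⊢; omega
      have hlex : v < s ++ b := by
        rcases hv2 with h3 | ⟨_, h3⟩
        · simp only [List.length_append] at h3 hlen; omega
        · exact h3
      have hnlex : ¬ (v < s ++ a) := fun hlt => h.2 hlen hlt
      obtain ⟨z, rfl⟩ := prefix_of_between s a b v hab hlen hnlex hlex
      refine ⟨z, ?_, rfl⟩
      simp only [List.length_append] at hlen
      show z.length = a.length
      omega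
  have hfin2 : ((fun z => s ++ z) '' {z : List A | z.length = a.length}).Finite :=
    (List.finite_length_eq A _).image _
  have hcard : {z : List A | z.length = a.length}.ncard ≤ Fintype.card A ^ a.length := by
    have : Nat.card {z : List A // z.length = a.length} = Fintype.card A ^ a.length := by
      have h1 : Nat.card (List.Vector A a.length) = Fintype.card A ^ a.length := by
        rw [Nat.card_eq_fintype_card, card_vector]
      exact h1
    exact this.le
  calc _ ≤ _ := Set.ncard_le_ncard hsub ((finite_below S _).union hfin2)
    _ ≤ _ := Set.ncard_union_le _ _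
    _ ≤ _ := Nat.add_le_add_left ((Set.ncard_image_le (List.finite_length_eq A _)).trans hcard) _

end Pool.Agent.H505R3.ANS
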