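import Mathlib
import Pool.Agent.H505R3.ANS.Defs
import Pool.Agent.H505R3.ANS.Growth
import Pool.Agent.H505R3.ANS.Val
import Pool.Agent.H505R3.ANS.Poly

set_option autoImplicit false
set_option linter.unusedSectionVars false

namespace Pool.Agent.H505R3.ANS

open Polynomial Filter

variable {A : Type*} [Fintype A] [LinearOrder A]

/-- the value set of a polynomial on the natural numbers -/
def valueSet (P : ℚ[X]) : Set ℕ := {x : ℕ | ∃ n : ℕ, P.eval (n : ℚ) = (x : ℚ)}

/-- powers of a word -/
def wpow (u : List A) : ℕ → List A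
  | 0 => []
  | k + 1 => u ++ wpow u k

lemma length_wpow (u : List A) (k : ℕ) : (wpow u k).length = k * u.length := by
  induction k with
  | zero => simp [wpow]
  | succ k ih => rw [wpow, List.length_append, ih]; ring

lemma eval_wpow {σ : Type*} (D : DFA A σ) (p : σ) (u : List A) (hu : D.evalFrom p u = p) (k : ℕ) :
    D.evalFrom p (wpow u k) = p := by
  induction k with
  | zero => simp [wpow]
  | succ k ih => rw [wpow, DFA.evalFrom_of_append, hu, ih]

/-- A DFA for `rep_S(P(ℕ))` has no forks. -/
lemma noFork (S : NumSystem A) (P : ℚ[X]) (hP : ∀ n : ℕ, ∃ m : ℕ, P.eval (n : ℚ) = m)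
    (hdeg : 2 ≤ P.natDegree) {σ : Type*} (D : DFA A σ) (hD : D.accepts = S.rep (valueSet P)) :
    NoFork D := by
  intro p ⟨x, hx⟩ ⟨y, hy⟩ u v huv hu hv
  by_contra hne
  have hupos : 0 < u.length := by
    by_contra h0
    have h1 : u.length = 0 := by omega
    have h2 : v.length = 0 := by omega
    rw [List.length_eq_zero_iff] at h1 h2
    exact hne (h1.trans h2.symm)
  -- words
  have hmem : ∀ (k : ℕ) (z : List A), D.evalFrom p z = p →
      (x ++ wpow u k) ++ (z ++ y) ∈ S.rep (valueSet P) := by
    intro k z hz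
    rw [← hD, DFA.mem_accepts]
    unfold DFA.eval
    rw [DFA.evalFrom_of_append, DFA.evalFrom_of_append, DFA.evalFrom_of_append]
    have : D.evalFrom D.start x = p := hx
    rw [this, eval_wpow D p u hu, hz]
    exact hy
  -- constants
  set C : ℕ := Fintype.card A ^ (u ++ y).length with hC
  obtain ⟨t, ht⟩ := big_gaps P hP hdeg (C + 1)
  -- bound for the values at small arguments
  obtain ⟨Z, hZ⟩ : ∃ Z : ℕ, ∀ i < t, P.eval (i : ℚ) ≤ Z := by
    refine ⟨∑ i ∈ Finset.range t, (hP i).choose, fun i hi => ?_⟩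
    rw [(hP i).choose_spec]
    have : (hP i).choose ≤ ∑ i ∈ Finset.range t, (hP i).choose :=
      Finset.single_le_sum (f := fun i => (hP i).choose) (fun _ _ => Nat.zero_le _)
        (Finset.mem_range.mpr hi)
    exact_mod_cast this
  -- values are large
  have hlarge : ∀ (z : List A) (hz : D.evalFrom p z = p) (hzl : z.length = u.length) (k : ℕ),
      k ≤ S.val ((x ++ wpow u k) ++ (z ++ y)) := by
    intro z hz hzl k
    induction k with
    | zero => exact Nat.zero_le _
    | succ k ih =>
      have h1 : S.val ((x ++ wpow u k) ++ (z ++ y)) < S.val ((x ++ wpow u (k + 1)) ++ (z ++ y)) := by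
        apply val_lt S (hmem k z hz).1
        apply List.Shortlex.of_length_lt
        simp only [List.length_append, length_wpow]
        nlinarith
      omega
  set k := Z + 1 with hk
  have hw := hmem k u hu
  have hw' := hmem k v hv
  set w := (x ++ wpow u k) ++ (u ++ y) with hwdef
  set w' := (x ++ wpow u k) ++ (v ++ y) with hwdef'
  have hwne : w ≠ w' := by
    intro h
    rw [hwdef, hwdef'] at h
    have h2 := List.append_cancel_left h
    exact hne (List.append_cancel_right h2)
  have hvne : S.val w ≠ S.val w' := fun h => hwne (val_inj S hw.1 hw'.1 h)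
  have hb1 : S.val w' ≤ S.val w + C :=
    val_diff S (x ++ wpow u k) (u ++ y) (v ++ y) (by simp [huv])
  have hb2 : S.val w ≤ S.val w' + C := by
    have := val_diff S (x ++ wpow u k) (v ++ y) (u ++ y) (by simp [huv])
    have hl : (v ++ y).length = (u ++ y).length := by simp [huv]
    rw [hl] at this
    exact this
  have hkw : k ≤ S.val w := hlarge u hu rfl k
  have hkw' : k ≤ S.val w' := hlarge v hv huv.symm k
  obtain ⟨i, hi⟩ := hw.2
  obtain ⟨j, hj⟩ := hw'.2
  have hti : t ≤ i := by
    by_contra h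
    have h1 := hZ i (by omega)
    rw [hi] at h1
    have h2 : S.val w ≤ Z := by exact_mod_cast h1
    omega
  have htj : t ≤ j := by
    by_contra h
    have h1 := hZ j (by omega)
    rw [hj] at h1
    have h2 : S.val w' ≤ Z := by exact_mod_cast h1
    omega
  rcases lt_trichotomy i j with hij | hij | hij
  · have h1 := ht i j hti hij
    rw [hi, hj] at h1
    have h2 : S.val w + (C + 1) ≤ S.val w' := by exact_mod_cast h1
    omega
  · apply hvne
    rw [hij] at hi
    rw [hi] at hj
    exact_mod_cast hj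
  · have h1 := ht j i htj hij
    rw [hi, hj] at h1
    have h2 : S.val w' + (C + 1) ≤ S.val w := by exact_mod_cast h1
    omega

/-- counting: the growth of `L` is controlled by the growth of `rep_S(P(ℕ))`. -/
lemma cum_le (S : NumSystem A) (P : ℚ[X]) (hP : ∀ n : ℕ, ∃ m : ℕ, P.eval (n : ℚ) = m)
    (hdeg : 2 ≤ P.natDegree) : ∃ C t : ℕ, ∀ n : ℕ,
      cum S.lang n ≤ C * (t + cum (S.rep (valueSet P)) n + 1) ^ P.natDegree := by
  classical
  obtain ⟨C, hC⟩ := poly_upper P
  obtain ⟨t, ht⟩ := big_gaps P hP hdeg 1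
  refine ⟨C, t, fun n => ?_⟩
  choose f hf using hP
  set N := cum (S.rep (valueSet P)) n with hN
  -- `N + 1` distinct values
  have hmono : ∀ i j : ℕ, t ≤ i → i < j → f i < f j := by
    intro i j hi hij
    have := ht i j hi hij
    rw [hf, hf] at this
    have h2 : f i + 1 ≤ f j := by exact_mod_cast this
    omega
  have hex : ∃ i ∈ Finset.range (N + 1), cum S.lang n ≤ f (t + i) := by
    by_contra hcon
    push Not at hcon
    -- then N+1 distinct words
    have hword : ∀ i ∈ Finset.range (N + 1), ∃ w, (w ∈ S.rep (valueSet P) ∧ w.length ≤ n) ∧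
        S.val w = f (t + i) := by
      intro i hi
      obtain ⟨w, hw1, hw2, hw3⟩ := exists_word S n (f (t + i)) (hcon i hi)
      refine ⟨w, ⟨⟨hw1, ?_⟩, hw2⟩, hw3⟩
      exact ⟨t + i, by rw [hf, hw3]⟩
    choose! g hg1 hg2 using hword
    have hmaps : ∀ i ∈ (Finset.range (N + 1) : Finset ℕ), g i ∈
        {w : List A | w ∈ S.rep (valueSet P) ∧ w.length ≤ n} := fun i hi => hg1 i hi
    have hinj : Set.InjOn g (Finset.range (N + 1) : Finset ℕ) := by
      intro i hi j hj hij
      have h1 := hg2 i hi
      have h2 := hg2 j hj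
      rw [hij, h2] at h1
      by_contra hne
      rcases lt_or_gt_of_ne hne with h | h
      · have := hmono (t + i) (t + j) (by omega) (by omega); omega
      · have := hmono (t + j) (t + i) (by omega) (by omega); omega
    have hcard := Set.ncard_le_ncard_of_injOn g (s := ((Finset.range (N + 1) : Finset ℕ) : Set ℕ))
      (t := {w : List A | w ∈ S.rep (valueSet P) ∧ w.length ≤ n})
      (fun i hi => hmaps i hi) hinj (finite_cum _ n)
    rw [Set.ncard_coe_finset, Finset.card_range] at hcard
    have : N + 1 ≤ N := hcard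
    omega
  obtain ⟨i, hi, hle⟩ := hex
  rw [Finset.mem_range] at hi
  refine hle.trans ?_
  have h1 := hC (t + i)
  rw [hf] at h1
  have h2 : f (t + i) ≤ C * ((t + i) + 1) ^ P.natDegree := by exact_mod_cast h1
  refine h2.trans ?_
  apply Nat.mul_le_mul_left
  apply Nat.pow_le_pow_left
  omega

theorem main (S : NumSystem A) (P : ℚ[X]) (hP : ∀ n : ℕ, ∃ m : ℕ, P.eval (n : ℚ) = m)
    (hdeg : 2 ≤ P.natDegree) (hrec : S.Recognisable (valueSet P)) :
    IsPolynomialLanguage S.lang := by
  classical
  obtain ⟨σ, hσ, D, hD⟩ := hrec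
  have hNF := noFork S P hP hdeg D hD
  obtain ⟨C, t, hCt⟩ := cum_le S P hP hdeg
  set a := Fintype.card A with ha
  set s := Fintype.card σ with hs
  set d := P.natDegree with hd
  -- growth of the recognised language
  have hM : ∀ n, cum (S.rep (valueSet P)) n ≤ (n + 1) * (n * a + 1) ^ s := by
    intro n
    unfold cum
    have hsub : {w : List A | w ∈ S.rep (valueSet P) ∧ w.length ≤ n} ⊆
        ⋃ i ∈ Finset.range (n + 1), {w : List A | w ∈ D.accepts ∧ w.length = i} := by
      intro w hw
      rw [Set.mem_iUnion₂]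
      exact ⟨w.length, Finset.mem_range.mpr (Nat.lt_succ_of_le hw.2), by rw [hD]; exact hw.1, rfl⟩
    have hfin : (⋃ i ∈ Finset.range (n + 1),
        {w : List A | w ∈ D.accepts ∧ w.length = i}).Finite := by
      apply Set.Finite.biUnion (Finset.finite_toSet _)
      intro i _
      exact (List.finite_length_eq A i).subset (fun _ h => h.2)
    refine (Set.ncard_le_ncard hsub hfin).trans ?_
    refine (Finset.set_ncard_biUnion_le _ _).trans ?_
    have : ∀ i ∈ Finset.range (n + 1), {w : List A | w ∈ D.accepts ∧ w.length = i}.ncard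
        ≤ (n * a + 1) ^ s := by
      intro i hi
      refine (card_accepts_le D hNF i).trans ?_
      apply Nat.pow_le_pow_left
      apply Nat.add_le_add_right
      apply Nat.mul_le_mul_right
      exact Nat.lt_succ_iff.mp (Finset.mem_range.mp hi)
    refine (Finset.sum_le_card_nsmul _ _ _ this).trans ?_
    rw [smul_eq_mul, Finset.card_range]
  refine ⟨(s + 1) * d, ?_⟩
  set B : ℕ := C * (t + 2 * (a + 1) ^ s + 1) ^ d with hB
  apply Asymptotics.IsBigO.of_bound (B : ℝ)
  filter_upwards [eventually_ge_atTop 1] with n hn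
  rw [Real.norm_of_nonneg (Nat.cast_nonneg _), Real.norm_of_nonneg (by positivity)]
  have h1 : {w : List A | w ∈ S.lang ∧ w.length = n}.ncard ≤ cum S.lang n := by
    apply Set.ncard_le_ncard _ (finite_cum _ n)
    intro w hw
    exact ⟨hw.1, hw.2.le⟩
  have h2 : (n + 1) * (n * a + 1) ^ s ≤ 2 * (a + 1) ^ s * n ^ (s + 1) := by
    have h3 : n * a + 1 ≤ (a + 1) * n := by nlinarith
    have h4 : (n * a + 1) ^ s ≤ (a + 1) ^ s * n ^ s := by
      rw [← mul_pow]; exact Nat.pow_le_pow_left h3 s
    calc (n + 1) * (n * a + 1) ^ s ≤ (2 * n) * ((a + 1) ^ s * n ^ s) :=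
          Nat.mul_le_mul (by omega) h4
      _ = 2 * (a + 1) ^ s * n ^ (s + 1) := by ring
  have h5 : t + cum (S.rep (valueSet P)) n + 1 ≤ (t + 2 * (a + 1) ^ s + 1) * n ^ (s + 1) := by
    have h6 : 1 ≤ n ^ (s + 1) := Nat.one_le_pow _ _ (by omega)
    have h7 := (hM n).trans h2
    nlinarith
  have h8 : {w : List A | w ∈ S.lang ∧ w.length = n}.ncard ≤ B * n ^ ((s + 1) * d) := by
    calc _ ≤ cum S.lang n := h1
      _ ≤ C * (t + cum (S.rep (valueSet P)) n + 1) ^ d := hCt n
      _ ≤ C * ((t + 2 * (a + 1) ^ s + 1) * n ^ (s + 1)) ^ d :=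
          Nat.mul_le_mul_left _ (Nat.pow_le_pow_left h5 d)
      _ = B * n ^ ((s + 1) * d) := by rw [hB, mul_pow, ← pow_mul]; ring
  exact_mod_cast h8

end Pool.Agent.H505R3.ANS
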